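import Pool.Agent.Helper53.Worm.Extra

/-!
# A smoothly bounded pseudoconvex domain and a divisor away from the Shilov boundary on which no bounded
holomorphic function vanishes
-/

set_option autoImplicit false

open Filter Topology Set Metric Pool.Agent.Helper53.Worm

namespace Pool.Agent.Results.MP_4c8440_an.Full

/-- There are a smoothly bounded (Levi) pseudoconvex domain in `ℂ²`, a divisor `V` in it, the union of the
slices `z₁ = -1/(2m)`, with a global equation, and a closed set `K` of boundary points on which all functions of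
`A(Ω)` attain their maximum modulus, with `dist (V, K) > 0`, such that every bounded holomorphic function on `Ω`
which vanishes on `V` is zero. -/
theorem result : ∃ (ρ : (Fin 2 → ℂ) → ℝ) (Ω V K : Set (Fin 2 → ℂ)),
    -- the domain
    ContDiff ℝ ((⊤ : ℕ∞) : WithTop ℕ∞) ρ ∧ Ω = {z | ρ z < 0} ∧ IsOpen Ω ∧ IsConnected Ω ∧
    Bornology.IsBounded Ω ∧ frontier Ω = {z | ρ z = 0} ∧
    (∀ z ∈ frontier Ω, fderiv ℝ ρ z ≠ 0) ∧
    (∀ z ∈ frontier Ω, ∀ w : Fin 2 → ℂ, fderiv ℝ ρ z w = 0 →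
      fderiv ℝ ρ z (Complex.I • w) = 0 →
      0 ≤ iteratedFDeriv ℝ 2 ρ z ![w, w]
        + iteratedFDeriv ℝ 2 ρ z ![Complex.I • w, Complex.I • w]) ∧
    -- the divisor
    V = {z | z ∈ Ω ∧ ∃ m : ℕ, 0 < m ∧ z 0 = -(1 / (2 * m))} ∧ V.Nonempty ∧
    (∃ G : (Fin 2 → ℂ) → ℂ, DifferentiableOn ℂ G Ω ∧ V = {z | z ∈ Ω ∧ G z = 0} ∧
      ∀ p ∈ Ω, ∀ r > 0, ∃ z ∈ ball p r, z ∈ Ω ∧ G z ≠ 0) ∧
    -- the closed boundary, at a positive distance from the divisor
    IsClosed K ∧ K ⊆ frontier Ω ∧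
    (∀ f : (Fin 2 → ℂ) → ℂ, ContinuousOn f (closure Ω) → DifferentiableOn ℂ f Ω →
      ∃ k ∈ K, ∀ z ∈ closure Ω, ‖f z‖ ≤ ‖f k‖) ∧
    (∃ δ > 0, ∀ v ∈ V, ∀ k ∈ K, δ ≤ dist v k) ∧
    -- no bounded holomorphic function
    ∀ f : (Fin 2 → ℂ) → ℂ, DifferentiableOn ℂ f Ω → (∃ M : ℝ, ∀ z ∈ Ω, ‖f z‖ ≤ M) →
      (∀ v ∈ V, f v = 0) → ∀ z ∈ Ω, f z = 0 := by
  refine ⟨rho, Om, VV, KF, contDiff_rho, rfl, isOpen_Om, isConnected_Om, isBounded_Om,
    frontier_Om_eq, fun z hz => rho_fderiv_ne hz, fun z hz w h1 h2 => rho_levi hz w h1 h2,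
    VV_eq, VV_nonempty, ⟨eqn, differentiableOn_eqn fun z hz => z0_ne hz, rfl, ?_⟩, isClosed_KF,
    inter_subset_right, KF_boundary, ?_, fun f hd ⟨M, hM⟩ hV => f_eq_zero hd hM hV⟩
  · intro p hp r hr
    obtain ⟨r', hr', hball⟩ := Metric.isOpen_iff.mp isOpen_Om p hp
    set s := min r r' with hs
    have hs0 : 0 < s := lt_min hr hr'
    set z : Fin 2 → ℂ := if (p 0).im = 0 then ![p 0 + ((s / 2 : ℝ) : ℂ) * Complex.I, p 1] else p
      with hz
    have hzs : z ∈ ball p s := by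
      rw [hz]
      split_ifs with him
      · rw [mem_ball, dist_pi_lt_iff hs0]
        intro i
        fin_cases i
        · simp only [Fin.zero_eta, Matrix.cons_val_zero]
          rw [dist_eq_norm, add_sub_cancel_left, norm_mul, Complex.norm_I, mul_one,
            Complex.norm_real, Real.norm_eq_abs, abs_of_pos (by positivity)]
          linarith
        · simp only [Fin.mk_one, Matrix.cons_val_one, Matrix.cons_val_fin_one, dist_self]
          exact hs0
      · exact mem_ball_self hs0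
    have hzO : z ∈ Om := hball (ball_subset_ball (min_le_right _ _) hzs)
    refine ⟨z, ball_subset_ball (min_le_left _ _) hzs, hzO, ?_⟩
    rw [Ne, eqn_zero_iff (z0_ne hzO)]
    rintro ⟨m, hm0, hm⟩
    have h2 : (-(1 / (2 * (m : ℂ)))).im = 0 := by
      have : (-(1 / (2 * (m : ℂ)))) = ((-(1 / (2 * (m : ℝ))) : ℝ) : ℂ) := by push_cast; ring
      rw [this, Complex.ofReal_im]
    rw [← hm, hz] at h2
    split_ifs at h2 with him
    · simp [him] at h2
      linarith
    · exact him h2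
  · have hc : IsCompact (closure VV) := by
      refine Metric.isCompact_of_isClosed_isBounded isClosed_closure ?_
      exact (isBounded_Om.subset fun z hz => hz.1).closure
    obtain ⟨δ, hδ, hdis⟩ := disjoint_KF.exists_thickenings hc isClosed_KF
    refine ⟨δ, hδ, fun v hv k hk => ?_⟩
    by_contra hlt
    rw [not_le] at hlt
    refine Set.disjoint_left.mp hdis (self_subset_thickening hδ _ (subset_closure hv)) ?_
    rw [mem_thickening_iff]
    exact ⟨k, hk, hlt⟩

end Pool.Agent.Results.MP_4c8440_an.Full
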